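import Pool.Agent.helper48.EXI.Spec2

/-!
# Block EXI of project NPT (MP_8f32d0_ag), row XOD: assembly
-/

set_option autoImplicit false

namespace EXI

open scoped Classical
open AN

theorem XOD_two (p : ℕ) [Fact p.Prime] (L : Type) [Field L] [CharP L p] (hp : p ≠ 2) : (2 : L) ≠ 0 := by
  intro h
  have h1 : ((2 : ℕ) : L) = 0 := by
    rw [← h]
    norm_num
  rw [CharP.cast_eq_zero_iff L p] at h1
  exact hp ((Nat.prime_dvd_prime_iff_eq (Fact.out : p.Prime) Nat.prime_two).1 h1)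

theorem XOD (hDIS : DIS_stmt) (hSQR : SQR_stmt) (hKHY : KHY_stmt) (hXNI : XNI_stmt) (hZA : ZA_stmt) (hZB : ZB_stmt)
    (hZB0 : ZB0_stmt) (hZB1 : ZB1_stmt) (hFH1 : FH1_stmt) : XOD_stmt := by
  intro p hpF g hp hg
  obtain ⟨L, iF, iA, iC, t, ht, hMN⟩ := hDIS p g hg hp
  have h2 : (2 : L) ≠ 0 := XOD_two p L hp
  obtain ⟨y, hy⟩ := hSQR L h2 g t
  obtain ⟨γ, a, hK, hAA⟩ := hKHY L h2 g t y hy ht
  have hHW : MN p (HW p γ a) g = 0 := hXNI p L g t y hp hy hMN γ a hK hAA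
  obtain ⟨P₀, hP₀⟩ := hZB0 L g γ a hK
  have hreg := hZB1 p L g γ a hK P₀ hP₀
  have hFF := hZA L g γ a hK
  refine ⟨L, iF, iA, iC, EF γ a, inferInstance, inferInstance, hFF, hZB p L g γ a hK, ?_⟩
  exact hFH1 p L (EF γ a) hFF P₀ (algebraMap (EF γ a) (LS L)) hP₀ g γ a hK hreg hHW

end EXI
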